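import Pool.Agent.H41.HYP.Base

/-!
# The local images are split

For `u` a divisor of `w² - f`, `f` monic of degree `2 g + 1`, the form `p, q ↦ τ(p q u)` has a totally
isotropic subspace of dimension `g`.
-/

set_option autoImplicit false

namespace Pool.HYP

open Polynomial Matrix

section Tau

variable {L : Type} [Field L]

/-- `tau` as a linear map. -/
noncomputable def tauP (f : L[X]) : L[X] →ₗ[L] L :=
  (lcoeff L (f.natDegree - 1)).comp (modByMonicHom f)

theorem tauP_apply (f p : L[X]) : tauP f p = tau f p := rfl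

theorem tau_eq_of_dvd {f p q : L[X]} (hf : f.Monic) (h : f ∣ p - q) : tau f p = tau f q := by
  have h1 : (p - q) %ₘ f = 0 := (modByMonic_eq_zero_iff_dvd hf).2 h
  have h2 : p %ₘ f = q %ₘ f := by
    rw [sub_modByMonic] at h1
    exact sub_eq_zero.1 h1
  unfold tau
  rw [h2]

theorem tau_small {f p : L[X]} (hf : f.Monic) (hp : p = 0 ∨ p.natDegree < f.natDegree - 1) :
    tau f p = 0 := by
  unfold tau
  rcases hp with rfl | hp
  · simp
  · have h1 : p %ₘ f = p := by
      rw [modByMonic_eq_self_iff hf]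
      exact degree_lt_degree (by omega)
    rw [h1]
    exact coeff_eq_zero_of_natDegree_lt hp

/-- The vector of the coefficients of the remainder. -/
noncomputable def vec (n : ℕ) (f p : L[X]) : Fin n → L := fun i => (p %ₘ f).coeff i

theorem vec_sum {n : ℕ} {f : L[X]} (hf : f.Monic) (hn : f.natDegree = n) (h0 : 0 < n) (p : L[X]) :
    ∑ i : Fin n, C (vec n f p i) * X ^ (i : ℕ) = p %ₘ f := by
  have h1 : (p %ₘ f).natDegree < n := by
    have h2 : f ≠ 1 := by
      rintro rfl
      rw [natDegree_one] at hn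
      omega
    rw [← hn]
    exact natDegree_modByMonic_lt p hf h2
  have h3 := as_sum_range_C_mul_X_pow' (p %ₘ f) h1
  rw [Finset.sum_range] at h3
  exact h3.symm

theorem tau_vec {n : ℕ} {f : L[X]} (hf : f.Monic) (hn : f.natDegree = n) (h0 : 0 < n)
    (u p q : L[X]) : vec n f p ⬝ᵥ (gr 0 n f u *ᵥ vec n f q) = tau f (u * (p * q)) := by
  have h1 : tau f (u * (p * q)) = tau f (u * ((p %ₘ f) * (q %ₘ f))) := by
    refine tau_eq_of_dvd hf ?_
    have e1 := modByMonic_add_div p f
    have e2 := modByMonic_add_div q f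
    refine ⟨u * ((p /ₘ f) * q + (p %ₘ f) * (q /ₘ f)), ?_⟩
    linear_combination u * (-q) * e1 + u * (-(p %ₘ f)) * e2
  rw [h1, ← vec_sum hf hn h0 p, ← vec_sum hf hn h0 q]
  have h2 : u * ((∑ i : Fin n, C (vec n f p i) * X ^ (i : ℕ)) *
      ∑ i : Fin n, C (vec n f q i) * X ^ (i : ℕ)) =
      ∑ i : Fin n, ∑ j : Fin n, (vec n f p i * vec n f q j) • (X ^ ((i : ℕ) + (j : ℕ) + 0) * u) := by
    rw [Finset.sum_mul_sum, Finset.mul_sum]
    refine Finset.sum_congr rfl fun i _ => ?_
    rw [Finset.mul_sum]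
    refine Finset.sum_congr rfl fun j _ => ?_
    rw [smul_eq_C_mul, C_mul]
    ring
  rw [h2, ← tauP_apply, map_sum]
  simp only [map_sum, map_smul, tauP_apply]
  simp only [dotProduct, mulVec, Finset.mul_sum, gr, of_apply, smul_eq_mul]
  refine Finset.sum_congr rfl fun i _ => Finset.sum_congr rfl fun j _ => ?_
  ring

end Tau

section Gauss

variable {L : Type} [Field L]

/-- A reduced form. -/
theorem gauss_red {g : ℕ} {f u w : L[X]} (hd : f.natDegree = 2 * g + 1)
    (hc : IsCoprime u f) (hw : u ∣ w ^ 2 - f) :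
    ∃ r1 r2 u1 w1 v1 : L[X], f ∣ u * r1 ^ 2 - u1 ∧ f ∣ u * (r1 * r2) - w1 ∧ f ∣ u * r2 ^ 2 - v1 ∧
      w1 ^ 2 - u1 * v1 = f ∧ u1 ≠ 0 ∧ v1 ≠ 0 ∧ (w1 = 0 ∨ w1.natDegree < u1.natDegree) ∧
      u1.natDegree ≤ v1.natDegree ∧ u1.natDegree + v1.natDegree = 2 * g + 1 := by
  classical
  have hns : ∀ z : L[X], z ^ 2 ≠ f := by
    intro z hz
    have := congrArg natDegree hz
    rw [natDegree_pow, hd] at this
    omega
  obtain ⟨S, hS⟩ : ∃ S : Set ℕ, S = {d | ∃ r1 r2 u1 w1 v1 : L[X], f ∣ u * r1 ^ 2 - u1 ∧
    f ∣ u * (r1 * r2) - w1 ∧ f ∣ u * r2 ^ 2 - v1 ∧ w1 ^ 2 - u1 * v1 = f ∧ u1.natDegree = d} :=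
    ⟨_, rfl⟩
  have hne : S.Nonempty := by
    obtain ⟨a, b, hab⟩ := hc
    obtain ⟨v, hv⟩ := hw
    rw [hS]
    refine ⟨u.natDegree, 1, w * a, u, w, v, ?_, ?_, ?_, ?_, rfl⟩
    · exact ⟨0, by ring⟩
    · exact ⟨-(w * b), by linear_combination w * hab⟩
    · -- u (w a)^2 - v
      refine ⟨a * (u * a) - b * (u * a * v + v), ?_⟩
      linear_combination (u * a ^ 2) * hv + (u * a * v + v) * hab
    · linear_combination hv
  have hmem := Nat.sInf_mem hne
  have hmin : ∀ m ∈ S, sInf S ≤ m := fun m hm => Nat.sInf_le hm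
  rw [hS] at hmem
  obtain ⟨r1, r2, u1, w1, v1, h1, h2, h3, h4, h5⟩ := hmem
  rw [← hS] at h5
  have hu0 : u1 ≠ 0 := by
    rintro rfl
    exact hns w1 (by linear_combination h4)
  -- reduce `w1` modulo `u1`
  have e1 := EuclideanDomain.div_add_mod w1 u1
  obtain ⟨c, hc1⟩ : ∃ c, c = w1 / u1 := ⟨_, rfl⟩
  obtain ⟨w2, hw2⟩ : ∃ w2, w2 = w1 % u1 := ⟨_, rfl⟩
  rw [← hc1, ← hw2] at e1
  have hw2d : w2 = 0 ∨ w2.natDegree < u1.natDegree := by
    by_cases h0 : w2 = 0
    · exact Or.inl h0
    · right
      have : w2.degree < u1.degree := by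
        rw [hw2]
        exact degree_mod_lt _ hu0
      exact natDegree_lt_natDegree h0 this
  obtain ⟨v2, hv2⟩ : ∃ v2, v2 = v1 - 2 * c * w1 + c ^ 2 * u1 := ⟨_, rfl⟩
  have g2 : f ∣ u * (r1 * (r2 - c * r1)) - w2 := by
    have : u * (r1 * (r2 - c * r1)) - w2 = (u * (r1 * r2) - w1) - c * (u * r1 ^ 2 - u1) := by
      linear_combination -e1
    rw [this]
    exact dvd_sub h2 (h1.mul_left c)
  have g3 : f ∣ u * (r2 - c * r1) ^ 2 - v2 := by
    have : u * (r2 - c * r1) ^ 2 - v2 = (u * r2 ^ 2 - v1) - 2 * c * (u * (r1 * r2) - w1) +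
        c ^ 2 * (u * r1 ^ 2 - u1) := by
      rw [hv2]
      ring
    rw [this]
    exact dvd_add (dvd_sub h3 (h2.mul_left _)) (h1.mul_left _)
  have g4 : w2 ^ 2 - u1 * v2 = f := by
    have : w2 = w1 - u1 * c := by linear_combination e1
    rw [this, hv2]
    linear_combination h4
  have hv0 : v2 ≠ 0 := by
    intro h0
    rw [h0] at g4
    exact hns w2 (by linear_combination g4)
  have hle : u1.natDegree ≤ v2.natDegree := by
    rw [h5]
    refine hmin _ ?_
    rw [hS]
    exact ⟨r2 - c * r1, r1, v2, w2, u1, g3, by rw [mul_comm (r2 - c * r1)]; exact g2, h1,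
      by linear_combination g4, rfl⟩
  refine ⟨r1, r2 - c * r1, u1, w2, v2, h1, g2, g3, g4, hu0, hv0, hw2d, hle, ?_⟩
  have k1 : (u1 * v2).natDegree = u1.natDegree + v2.natDegree := natDegree_mul hu0 hv0
  have k2 : u1 * v2 = w2 ^ 2 - f := by linear_combination -g4
  rcases hw2d with h0 | h0
  · rw [← k1, k2, h0]
    have : (0 : L[X]) ^ 2 - f = -f := by ring
    rw [this, natDegree_neg, hd]
  · have k3 : (w2 ^ 2).natDegree < (u1 * v2).natDegree := by
      rw [natDegree_pow, k1]
      omega
    have k4 : f = w2 ^ 2 - u1 * v2 := g4.symm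
    have k5 : f.natDegree = (u1 * v2).natDegree := by
      rw [k4]
      exact natDegree_sub_eq_right_of_natDegree_lt k3
    rw [← k1, ← k5, hd]

end Gauss

/-- **The classes of the divisors are split.** -/
theorem spl (L : Type) [Field L] (_h2 : (2 : L) ≠ 0) (g : ℕ) (f u w : L[X]) (hf : f.Monic)
    (hd : f.natDegree = 2 * g + 1) (_hu : u ≠ 0) (hc : IsCoprime u f) (hw : u ∣ w ^ 2 - f) :
    SplM g (gr 0 (2 * g + 1) f u) := by
  classical
  obtain ⟨r1, r2, u1, w1, v1, h1, h3, h4, h5, hu1, hv1, hw1, hle, hsum⟩ :=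
    gauss_red hd hc hw
  obtain ⟨k, hk⟩ : ∃ k, k = u1.natDegree / 2 := ⟨_, rfl⟩
  have hkg : k ≤ g := by omega
  -- the polynomials
  obtain ⟨A, hA⟩ : ∃ A : Fin g → L[X], 
    A = fun i : Fin g => if (i : ℕ) < g - k then X ^ (i : ℕ) else 0 := ⟨_, rfl⟩
  obtain ⟨B, hB⟩ : ∃ B : Fin g → L[X],
    B = fun i : Fin g => if (i : ℕ) < g - k then 0 else X ^ ((i : ℕ) - (g - k)) := ⟨_, rfl⟩
  have hAd : ∀ i, A i = 0 ∨ 2 * (A i).natDegree + u1.natDegree < 2 * g := by
    intro i
    rw [hA]
    by_cases hi : (i : ℕ) < g - k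
    · right
      simp only [hi, if_true, natDegree_X_pow]
      omega
    · left
      simp only [hi, if_false]
  have hBd : ∀ i, B i = 0 ∨ 2 * (B i).natDegree + v1.natDegree < 2 * g := by
    intro i
    rw [hB]
    by_cases hi : (i : ℕ) < g - k
    · left
      simp only [hi, if_true]
    · right
      simp only [hi, if_false, natDegree_X_pow]
      have := i.2
      omega
  have key : ∀ a b c d : L[X], f ∣ u * ((a * r1 + b * r2) * (c * r1 + d * r2)) -
      (u1 * (a * c) + w1 * (a * d + b * c) + v1 * (b * d)) := by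
    intro a b c d
    have : u * ((a * r1 + b * r2) * (c * r1 + d * r2)) -
        (u1 * (a * c) + w1 * (a * d + b * c) + v1 * (b * d)) =
        (a * c) * (u * r1 ^ 2 - u1) + (a * d + b * c) * (u * (r1 * r2) - w1) +
          (b * d) * (u * r2 ^ 2 - v1) := by ring
    rw [this]
    exact dvd_add (dvd_add (h1.mul_left _) (h3.mul_left _)) (h4.mul_left _)
  -- degrees
  have hdeg : ∀ a b c d : L[X], (a = 0 ∨ 2 * a.natDegree + u1.natDegree < 2 * g) →
      (b = 0 ∨ 2 * b.natDegree + v1.natDegree < 2 * g) →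
      (c = 0 ∨ 2 * c.natDegree + u1.natDegree < 2 * g) →
      (d = 0 ∨ 2 * d.natDegree + v1.natDegree < 2 * g) →
      (u1 * (a * c) + w1 * (a * d + b * c) + v1 * (b * d)) ∈ degreeLT L (2 * g) := by
    intro a b c d ha hb hc' hd'
    have hm : ∀ p : L[X], p = 0 ∨ p.natDegree < 2 * g → p ∈ degreeLT L (2 * g) := by
      intro p hp
      rw [mem_degreeLT]
      rcases hp with rfl | hp
      · rw [degree_zero]
        exact WithBot.bot_lt_coe _
      · by_cases h0 : p = 0
        · rw [h0, degree_zero]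
          exact WithBot.bot_lt_coe _
        · rw [degree_eq_natDegree h0]
          exact_mod_cast hp
    have m1 : u1 * (a * c) ∈ degreeLT L (2 * g) := by
      refine hm _ ?_
      rcases ha with rfl | ha
      · left; ring
      rcases hc' with rfl | hc'
      · left; ring
      right
      refine lt_of_le_of_lt (natDegree_mul_le.trans (Nat.add_le_add_left natDegree_mul_le _)) ?_
      omega
    have m2 : v1 * (b * d) ∈ degreeLT L (2 * g) := by
      refine hm _ ?_
      rcases hb with rfl | hb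
      · left; ring
      rcases hd' with rfl | hd'
      · left; ring
      right
      refine lt_of_le_of_lt (natDegree_mul_le.trans (Nat.add_le_add_left natDegree_mul_le _)) ?_
      omega
    have m3 : ∀ p q : L[X], (p = 0 ∨ 2 * p.natDegree + u1.natDegree < 2 * g) →
        (q = 0 ∨ 2 * q.natDegree + v1.natDegree < 2 * g) → w1 * (p * q) ∈ degreeLT L (2 * g) := by
      intro p q hp hq
      refine hm _ ?_
      rcases hp with rfl | hp
      · left; ring
      rcases hq with rfl | hq
      · left; ring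
      rcases hw1 with hw1 | hw1
      · left; rw [hw1]; ring
      right
      refine lt_of_le_of_lt (natDegree_mul_le.trans (Nat.add_le_add_left natDegree_mul_le _)) ?_
      omega
    have m4 : u1 * (a * c) + w1 * (a * d + b * c) + v1 * (b * d) =
        u1 * (a * c) + (w1 * (a * d) + w1 * (c * b)) + v1 * (b * d) := by ring
    rw [m4]
    exact (degreeLT L (2 * g)).add_mem ((degreeLT L (2 * g)).add_mem m1
      ((degreeLT L (2 * g)).add_mem (m3 _ _ ha hd') (m3 _ _ hc' hb))) m2
  refine ⟨fun i => vec (2 * g + 1) f (A i * r1 + B i * r2), ?_, ?_⟩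
  · rw [Fintype.linearIndependent_iff]
    intro c hc0
    obtain ⟨a, ha⟩ : ∃ a, a = ∑ i, C (c i) * A i := ⟨_, rfl⟩
    obtain ⟨b, hb⟩ : ∃ b, b = ∑ i, C (c i) * B i := ⟨_, rfl⟩
    have hdiv : f ∣ a * r1 + b * r2 := by
      rw [← modByMonic_eq_zero_iff_dvd hf]
      have e1 : (a * r1 + b * r2) = ∑ i, c i • (A i * r1 + B i * r2) := by
        rw [ha, hb, Finset.sum_mul, Finset.sum_mul, ← Finset.sum_add_distrib]
        refine Finset.sum_congr rfl fun i _ => ?_
        rw [smul_eq_C_mul]
        ring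
      have e2 : (a * r1 + b * r2) %ₘ f = ∑ i, c i • ((A i * r1 + B i * r2) %ₘ f) := by
        rw [e1]
        have := map_sum (modByMonicHom f) (fun i => c i • (A i * r1 + B i * r2)) Finset.univ
        simp only [map_smul] at this
        exact this
      rw [e2]
      have e3 : ∀ m : Fin (2 * g + 1), (∑ i, c i • ((A i * r1 + B i * r2) %ₘ f)).coeff m = 0 := by
        intro m
        have := congrFun hc0 m
        simp only [Finset.sum_apply, Pi.smul_apply, vec, smul_eq_mul, Pi.zero_apply] at this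
        rw [finsetSum_coeff]
        simp only [coeff_smul, smul_eq_mul]
        exact this
      rw [← e2] at e3 ⊢
      have e4 := vec_sum hf hd (by omega) (a * r1 + b * r2)
      rw [← e4]
      refine Finset.sum_eq_zero fun i _ => ?_
      unfold vec
      rw [e3 i, C_0, zero_mul]
    have hAc : ∀ i : Fin g, (i : ℕ) < g - k → a.coeff i = c i := by
      intro i hi
      rw [ha, finsetSum_coeff, Finset.sum_eq_single i]
      · rw [hA]
        simp only [hi, if_true, coeff_C_mul, coeff_X_pow_self, mul_one]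
      · intro j _ hj
        rw [hA]
        simp only
        split_ifs with h
        · rw [coeff_C_mul, coeff_X_pow, if_neg, mul_zero]
          intro h'
          exact hj (Fin.ext h'.symm)
        · rw [mul_zero, coeff_zero]
      · intro h
        exact absurd (Finset.mem_univ i) h
    have hBc : ∀ i : Fin g, ¬ (i : ℕ) < g - k → b.coeff ((i : ℕ) - (g - k)) = c i := by
      intro i hi
      rw [hb, finsetSum_coeff, Finset.sum_eq_single i]
      · rw [hB]
        simp only [hi, if_false, coeff_C_mul, coeff_X_pow_self, mul_one]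
      · intro j _ hj
        rw [hB]
        simp only
        split_ifs with h
        · rw [mul_zero, coeff_zero]
        · rw [coeff_C_mul, coeff_X_pow, if_neg, mul_zero]
          intro h'
          exact hj (Fin.ext (by omega))
      · intro h
        exact absurd (Finset.mem_univ i) h
    -- degrees of `a`, `b`
    have hal : a = 0 ∨ 2 * a.natDegree + u1.natDegree < 2 * g := by
      by_cases h0 : a = 0
      · exact Or.inl h0
      right
      by_contra hcon
      have hlead : a.coeff a.natDegree ≠ 0 := by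
        rw [coeff_natDegree]
        exact leadingCoeff_ne_zero.2 h0
      apply hlead
      rw [ha, finsetSum_coeff]
      refine Finset.sum_eq_zero fun i _ => ?_
      rw [coeff_C_mul]
      rw [← ha]
      rcases hAd i with h | h
      · rw [h, coeff_zero, mul_zero]
      · rw [coeff_eq_zero_of_natDegree_lt (by omega), mul_zero]
    have hbl : b = 0 ∨ 2 * b.natDegree + v1.natDegree < 2 * g := by
      by_cases h0 : b = 0
      · exact Or.inl h0
      right
      by_contra hcon
      have hlead : b.coeff b.natDegree ≠ 0 := by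
        rw [coeff_natDegree]
        exact leadingCoeff_ne_zero.2 h0
      apply hlead
      rw [hb, finsetSum_coeff]
      refine Finset.sum_eq_zero fun i _ => ?_
      rw [coeff_C_mul]
      rw [← hb]
      rcases hBd i with h | h
      · rw [h, coeff_zero, mul_zero]
      · rw [coeff_eq_zero_of_natDegree_lt (by omega), mul_zero]
    have hq0 : u1 * (a * a) + w1 * (a * b + b * a) + v1 * (b * b) = 0 := by
      have m1 := hdeg a b a b hal hbl hal hbl
      have m2 : f ∣ u1 * (a * a) + w1 * (a * b + b * a) + v1 * (b * b) := by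
        have := key a b a b
        have h' : f ∣ u * ((a * r1 + b * r2) * (a * r1 + b * r2)) :=
          (hdiv.mul_left _).mul_left _
        have := dvd_sub h' this
        rwa [sub_sub_cancel] at this
      by_contra hne
      rw [mem_degreeLT] at m1
      have m3 := degree_le_of_dvd m2 hne
      rw [degree_eq_natDegree hf.ne_zero, hd] at m3
      have m4 := lt_of_le_of_lt m3 m1
      have m5 : (2 * g + 1 : ℕ) < 2 * g := by exact_mod_cast m4
      omega
    have hsq : (u1 * a + w1 * b) ^ 2 = f * b ^ 2 := by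
      linear_combination u1 * hq0 + b ^ 2 * h5
    have hb0 : b = 0 := by
      by_contra hne
      have m1 := congrArg natDegree hsq
      rw [natDegree_pow, natDegree_mul hf.ne_zero (pow_ne_zero 2 hne), natDegree_pow, hd] at m1
      omega
    have ha0 : a = 0 := by
      rw [hb0] at hsq
      have : (u1 * a) ^ 2 = 0 := by linear_combination hsq
      have := pow_eq_zero_iff (two_ne_zero) |>.1 this
      exact (mul_eq_zero.1 this).resolve_left hu1
    intro i
    by_cases hi : (i : ℕ) < g - k
    · rw [← hAc i hi, ha0, coeff_zero]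
    · rw [← hBc i hi, hb0, coeff_zero]
  · intro i j
    rw [tau_vec hf hd (by omega)]
    rw [tau_eq_of_dvd hf (key (A i) (B i) (A j) (B j))]
    refine tau_small hf ?_
    have m1 := hdeg (A i) (B i) (A j) (B j) (hAd i) (hBd i) (hAd j) (hBd j)
    rw [mem_degreeLT] at m1
    by_cases h0 : u1 * (A i * A j) + w1 * (A i * B j + B i * A j) + v1 * (B i * B j) = 0
    · exact Or.inl h0
    · right
      rw [degree_eq_natDegree h0] at m1
      rw [hd]
      have : (u1 * (A i * A j) + w1 * (A i * B j + B i * A j) + v1 * (B i * B j)).natDegree <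
        2 * g := by exact_mod_cast m1
      omega

end Pool.HYP
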