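import Pool.Agent.H41.HYP.S2
import Pool.Agent.H97.PRL.LHL

/-!
# The type of a class is additive
-/

set_option autoImplicit false

namespace Pool.HYP.H69

open Polynomial Matrix Pool.AVS

variable {L : Type} [Field L] {O : ValuationSubring L} {π : L}

theorem ui_coe {t : O} (h : IsUnit t) : UI (O : Set L) (t : L) := by
  obtain ⟨u, rfl⟩ := h
  have h1 : ((u : O) : L) * ((u⁻¹ : Oˣ) : O) = 1 := by
    have := congrArg (Subtype.val) (Units.mul_inv u)
    exact this
  have h0 : ((u : O) : L) ≠ 0 := left_ne_zero_of_mul_eq_one h1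
  refine ⟨h0, (u : O).2, ?_⟩
  rw [inv_eq_of_mul_eq_one_right h1]
  exact ((u⁻¹ : Oˣ) : O).2

theorem isUnit_of_ui {t : O} (h : UI (O : Set L) (t : L)) : IsUnit t := by
  refine IsUnit.of_mul_eq_one (⟨(t : L)⁻¹, h.2.2⟩ : O) ?_
  apply Subtype.ext
  exact mul_inv_cancel₀ h.1

/-- A unit is a square if and only if its residue is a square. -/
theorem sq_res (h : Loc L O π) {t : O} (ht : IsUnit t) :
    IsSquare (t : L) ↔ IsSquare (IsLocalRing.residue O t) := by
  rw [← Pool.PRL.LHL.isSquare_iff h (ui_coe ht)]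
  constructor
  · rintro ⟨w, hw, h1⟩
    refine ⟨IsLocalRing.residue O ⟨w, hw⟩, ?_⟩
    have h2 : (t - (⟨w, hw⟩ : O) ^ 2) ∈ IsLocalRing.maximalIdeal O := by
      rw [HSM.mem_max h]
      push_cast
      exact h1
    have h3 := (IsLocalRing.residue_eq_zero_iff _).2 h2
    rw [map_sub, map_pow, sub_eq_zero] at h3
    rw [h3, sq]
  · rintro ⟨r, hr⟩
    obtain ⟨w, rfl⟩ := IsLocalRing.residue_surjective r
    refine ⟨w, w.2, ?_⟩
    have h2 : (t - w ^ 2) ∈ IsLocalRing.maximalIdeal O := by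
      rw [← IsLocalRing.residue_eq_zero_iff, map_sub, map_pow, hr, sq, sub_self]
    rw [HSM.mem_max h] at h2
    push_cast at h2
    exact h2

/-- The product of two elements of a finite field. -/
theorem sq_mul_ff {k : Type} [Field k] [Finite k] (h2 : (2 : k) ≠ 0) {a b : k} (ha : a ≠ 0)
    (hb : b ≠ 0) : IsSquare (a * b) ↔ (IsSquare a ↔ IsSquare b) := by
  classical
  have := Fintype.ofFinite k
  have hc : ringChar k ≠ 2 := by
    intro h
    apply h2
    have := ringChar.Nat.cast_ringChar (R := k)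
    rw [h] at this
    exact_mod_cast this
  by_cases h3 : IsSquare a
  · by_cases h4 : IsSquare b
    · simp only [h3, h4, iff_self, iff_true]
      exact h3.mul h4
    · simp only [h3, h4, iff_false, not_true_eq_false]
      rintro ⟨r, hr⟩
      obtain ⟨s, hs⟩ := h3
      apply h4
      refine ⟨r / s, ?_⟩
      have hs0 : s ≠ 0 := by
        rintro rfl
        exact ha (by rw [hs, mul_zero])
      field_simp
      rw [hs] at hr
      linear_combination hr
  · by_cases h4 : IsSquare b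
    · simp only [h3, h4, false_iff, not_true_eq_false, iff_false]
      rintro ⟨r, hr⟩
      obtain ⟨s, hs⟩ := h4
      apply h3
      refine ⟨r / s, ?_⟩
      have hs0 : s ≠ 0 := by
        rintro rfl
        exact hb (by rw [hs, mul_zero])
      field_simp
      rw [hs] at hr
      linear_combination hr
    · simp only [h3, h4, iff_self, iff_true]
      have e1 := (quadraticChar_neg_one_iff_not_isSquare (F := k)).2 h3
      have e2 := (quadraticChar_neg_one_iff_not_isSquare (F := k)).2 h4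
      have e3 : quadraticChar k (a * b) = 1 := by
        rw [map_mul, e1, e2]
        norm_num
      exact (quadraticChar_one_iff_isSquare (mul_ne_zero ha hb)).1 e3

/-- The product of two units. -/
theorem sq_mul_unit (h : Loc L O π) {a b : O} (ha : IsUnit a) (hb : IsUnit b) :
    IsSquare ((a : L) * b) ↔ (IsSquare (a : L) ↔ IsSquare (b : L)) := by
  have hf : Finite (IsLocalRing.ResidueField O) := h.fin
  have h0 : ∀ t : O, IsUnit t → IsLocalRing.residue O t ≠ 0 := by
    intro t ht h1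
    rw [IsLocalRing.residue_eq_zero_iff, IsLocalRing.mem_maximalIdeal, mem_nonunits_iff] at h1
    exact h1 ht
  have h2 : (2 : IsLocalRing.ResidueField O) ≠ 0 := by
    have := h0 2 (LocB.two_unit h)
    rwa [map_ofNat] at this
  have e1 := sq_res h (ha.mul hb)
  rw [map_mul] at e1
  rw [sq_res h ha, sq_res h hb, ← sq_mul_ff h2 (h0 a ha) (h0 b hb), ← e1]
  push_cast
  rfl

theorem sq_mul_sq (a : L) {t : L} (ht : t ≠ 0) : IsSquare (a * t ^ 2) ↔ IsSquare a := by
  constructor
  · rintro ⟨r, hr⟩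
    refine ⟨r / t, ?_⟩
    field_simp
    linear_combination hr
  · rintro ⟨r, hr⟩
    exact ⟨r * t, by rw [hr]; ring⟩

/-- A unit times a square. -/
def USq (O : ValuationSubring L) (a : L) : Prop := ∃ (u : O) (s : L), IsUnit u ∧ s ≠ 0 ∧ a = u * s ^ 2

theorem USq.mul {a b : L} (ha : USq O a) (hb : USq O b) : USq O (a * b) := by
  obtain ⟨u, s, h1, h2, h3⟩ := ha
  obtain ⟨v, t, h4, h5, h6⟩ := hb
  refine ⟨u * v, s * t, h1.mul h4, mul_ne_zero h2 h5, ?_⟩
  rw [h3, h6]
  push_cast
  ring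

theorem USq.of_unit {u : O} (h : IsUnit u) : USq O (u : L) :=
  ⟨u, 1, h, one_ne_zero, by ring⟩

theorem USq.pow {a : L} (ha : USq O a) (n : ℕ) : USq O (a ^ n) := by
  induction n with
  | zero => exact ⟨1, 1, isUnit_one, one_ne_zero, by push_cast; ring⟩
  | succ n ih =>
    rw [pow_succ]
    exact ih.mul ha

theorem USq.isSquare_mul (h : Loc L O π) {a b : L} (ha : USq O a) (hb : USq O b) :
    IsSquare (a * b) ↔ (IsSquare a ↔ IsSquare b) := by
  obtain ⟨u, s, h1, h2, h3⟩ := ha
  obtain ⟨v, t, h4, h5, h6⟩ := hb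
  have e1 : a * b = (u : L) * v * (s * t) ^ 2 := by
    rw [h3, h6]
    ring
  rw [e1, sq_mul_sq _ (mul_ne_zero h2 h5), h3, h6, sq_mul_sq _ h2, sq_mul_sq _ h5]
  exact sq_mul_unit h h1 h4

/-- The value of `γ` at `c` is a unit. -/
theorem gam_unit {g : ℕ} {γ : O[X]} (hγ : OkL O g γ) (c : O) : IsUnit (γ.eval c) := by
  by_contra hc
  have h1 : γ.eval c ∈ IsLocalRing.maximalIdeal O := by
    rw [IsLocalRing.mem_maximalIdeal, mem_nonunits_iff]
    exact hc
  rw [← IsLocalRing.residue_eq_zero_iff] at h1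
  have h2 : (rd O γ).eval (IsLocalRing.residue O c) = 0 := by
    rw [← h1, rd, eval_map, eval₂_at_apply]
  have h3 : (X - C (IsLocalRing.residue O c)) ∣ rd O γ := dvd_iff_isRoot.2 h2
  have h4 : (rd O γ).natDegree = 2 * g := by
    rw [rd, hγ.1.natDegree_map, hγ.2.1]
  have h5 : (rd O γ).degree = 1 := degree_eq_one_of_irreducible_of_root hγ.2.2 h2
  have h6 : (rd O γ).natDegree = 1 := natDegree_eq_of_degree_eq_some (by rw [h5]; rfl)
  omega

theorem eval_coe (γ : O[X]) (c : O) : (oL O γ).eval (c : L) = ((γ.eval c : O) : L) := by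
  rw [oL, eval_map]
  exact eval₂_at_apply (algebraMap O L) c

theorem oL_mul_X_sub (c : O) (γ : O[X]) : oL O ((X - C c) * γ) = (X - C (c : L)) * oL O γ := by
  rw [oL, oL, Polynomial.map_mul, Polynomial.map_sub, map_X, map_C]
  rfl

/-- The norm from the unramified extension. -/
theorem norm_usq (hUNR : UNRStmt) (h : Loc L O π) {g : ℕ} {γ : O[X]} (hγ : OkL O g γ) {x : L[X]}
    {n : ℤ} {p : O[X]} (hp : IsCoprime (rd O p) (rd O γ)) (hd : oL O γ ∣ x - C (π ^ n) * oL O p) :
    USq O (Algebra.norm L (AdjoinRoot.mk (oL O γ) x)) := by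
  have hm : (oL O γ).Monic := hγ.1.map _
  have hfin : Module.finrank L (AdjoinRoot (oL O γ)) = 2 * g := by
    rw [(AdjoinRoot.powerBasis' hm).finrank]
    show (oL O γ).natDegree = 2 * g
    rw [hγ.1.natDegree_map, hγ.2.1]
  have e1 : AdjoinRoot.mk (oL O γ) x = AdjoinRoot.mk (oL O γ) (C (π ^ n) * oL O p) := by
    rw [← sub_eq_zero, ← map_sub]
    exact AdjoinRoot.mk_eq_zero.2 hd
  have e2 := (hUNR L O π h γ hγ.1 hγ.2.2).2.2.1 p hp
  rw [e1, map_mul, map_mul]
  have e3 : Algebra.norm L (AdjoinRoot.mk (oL O γ) (C (π ^ n))) = ((π ^ n) ^ g) ^ 2 := by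
    have : AdjoinRoot.mk (oL O γ) (C (π ^ n)) =
      algebraMap L (AdjoinRoot (oL O γ)) (π ^ n) := rfl
    rw [this, Algebra.norm_algebraMap, hfin]
    ring
  rw [e3]
  refine ⟨⟨_, e2.2.1⟩, (π ^ n) ^ g, isUnit_of_ui e2, pow_ne_zero _ (zpow_ne_zero _ h.pi_ne), ?_⟩
  ring

/-- The value at `c` is a unit times a square. -/
theorem eval_usq (hUNR : UNRStmt) (hNMU : NMUStmt) (h : Loc L O π) {g : ℕ} {c : O} {γ : O[X]}
    (hγ : OkL O g γ) {x : L[X]} (hx : IsCoprime x (oL O ((X - C c) * γ)))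
    (hN : NSq (oL O ((X - C c) * γ)) x) {n : ℤ} {p : O[X]} (hp : IsCoprime (rd O p) (rd O γ))
    (hd : oL O γ ∣ x - C (π ^ n) * oL O p) : USq O (x.eval (c : L)) := by
  have hm : (oL O γ).Monic := hγ.1.map _
  rw [oL_mul_X_sub] at hx hN
  have hx0 : x.eval (c : L) ≠ 0 := by
    intro h0
    obtain ⟨a, b, hab⟩ := hx
    have := congrArg (eval (c : L)) hab
    simp [h0] at this
  unfold NSq at hN
  rw [hNMU.1 L _ _ x (monic_X_sub_C _) hm, hNMU.2.1 L (c : L) x] at hN
  obtain ⟨u, s, hu, hs, e1⟩ := norm_usq hUNR h hγ hp hd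
  rw [e1] at hN
  obtain ⟨r, hr⟩ := hN
  obtain ⟨v, hv⟩ := hu.exists_right_inv
  have hv' : ((u : O) : L) * v = 1 := by
    have := congrArg (Subtype.val) hv
    exact this
  have hvu : IsUnit v := IsUnit.of_mul_eq_one u (by rw [mul_comm]; exact hv)
  have hu0 : (u : L) ≠ 0 := left_ne_zero_of_mul_eq_one hv'
  have hr0 : r ≠ 0 := by
    rintro rfl
    rw [mul_zero] at hr
    exact mul_ne_zero hx0 (mul_ne_zero hu0 (pow_ne_zero 2 hs)) hr
  refine ⟨v, r / s, hvu, div_ne_zero hr0 hs, ?_⟩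
  have e4 : (v : L) = (u : L)⁻¹ := (inv_eq_of_mul_eq_one_right hv').symm
  rw [e4]
  field_simp
  linear_combination hr

theorem tym (hUNR : UNRStmt) (hNMU : NMUStmt) : TYMStmt := by
  intro L _ O π h g c γ _ hγ x y a b hx hy hNx hNy ha hb
  obtain ⟨n, p, hp, hd, hn, hsq⟩ := ha
  obtain ⟨m, q, hq, he, hm, htq⟩ := hb
  have ux := eval_usq hUNR hNMU h hγ hx hNx hp hd
  have uy := eval_usq hUNR hNMU h hγ hy hNy hq he
  have uG : USq O ((oL O γ).eval (c : L)) := by
    rw [eval_coe]
    exact USq.of_unit (gam_unit hγ c)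
  have hG0 : (oL O γ).eval (c : L) ≠ 0 := by
    rw [eval_coe]
    exact (ui_coe (gam_unit hγ c)).1
  refine ⟨n + m, p * q, ?_, ?_, ?_, ?_⟩
  · rw [rd, Polynomial.map_mul]
    exact hp.mul_left hq
  · have e1 : x * y - C (π ^ (n + m)) * oL O (p * q) =
        y * (x - C (π ^ n) * oL O p) + C (π ^ n) * oL O p * (y - C (π ^ m) * oL O q) := by
      rw [zpow_add₀ h.pi_ne, C_mul, oL, oL, oL, Polynomial.map_mul]
      ring
    rw [e1]
    exact dvd_add (hd.mul_left _) (he.mul_left _)
  · rw [Int.cast_add, hn, hm]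
    rfl
  · have e1 : (x * y).eval (c : L) * ((oL O γ).eval (c : L)) ^ (a + b).1.val =
        (x.eval (c : L) * ((oL O γ).eval (c : L)) ^ a.1.val) *
          (y.eval (c : L) * ((oL O γ).eval (c : L)) ^ b.1.val) ∨
        (x.eval (c : L) * ((oL O γ).eval (c : L)) ^ a.1.val) *
          (y.eval (c : L) * ((oL O γ).eval (c : L)) ^ b.1.val) =
        (x * y).eval (c : L) * ((oL O γ).eval (c : L)) ^ (a + b).1.val *
          ((oL O γ).eval (c : L)) ^ 2 := by
      have h4 : ∀ i j : ZMod 2, (i + j).val = i.val + j.val ∨ i.val + j.val = (i + j).val + 2 := by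
        decide
      rcases h4 a.1 b.1 with h5 | h5
      · left
        have : (a + b).1.val = a.1.val + b.1.val := h5
        rw [this, pow_add, eval_mul]
        ring
      · right
        have e5 : a.1.val + b.1.val = (a + b).1.val + 2 := h5
        have e6 : (x.eval (c : L) * ((oL O γ).eval (c : L)) ^ a.1.val) *
          (y.eval (c : L) * ((oL O γ).eval (c : L)) ^ b.1.val) = x.eval (c : L) * y.eval (c : L) *
            ((oL O γ).eval (c : L)) ^ (a.1.val + b.1.val) := by
          rw [pow_add]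
          ring
        rw [e6, e5, pow_add, eval_mul]
        ring
    have e2 : IsSquare ((x * y).eval (c : L) * ((oL O γ).eval (c : L)) ^ (a + b).1.val) ↔
        (IsSquare (x.eval (c : L) * ((oL O γ).eval (c : L)) ^ a.1.val) ↔
          IsSquare (y.eval (c : L) * ((oL O γ).eval (c : L)) ^ b.1.val)) := by
      rw [← USq.isSquare_mul h (ux.mul (uG.pow _)) (uy.mul (uG.pow _))]
      rcases e1 with e1 | e1
      · rw [e1]
      · rw [e1, sq_mul_sq _ hG0]
    rw [e2, ← hsq, ← htq]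
    have h5 : ∀ i j : ZMod 2, i + j = 0 ↔ (i = 0 ↔ j = 0) := by decide
    exact h5 a.2 b.2

end Pool.HYP.H69

namespace Pool.HYP

/-- **TYM.** -/
theorem tym (hUNR : UNRStmt) (hNMU : NMUStmt) : TYMStmt := H69.tym hUNR hNMU

end Pool.HYP
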