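import Pool.Agent.H41.HYP.S2

/-!
# Uniqueness of the type
-/

set_option autoImplicit false

namespace Pool.HYP

open Polynomial Matrix Pool.AVS

/-- **TYQ.** -/
theorem tyq (hUNR : UNRStmt) : TYQStmt := by
  intro L _ O π h g c γ _ hγ a x y hx hy
  obtain ⟨n, p, hp, hd, hn, hsq⟩ := hx
  obtain ⟨m, q, hq, he, hm, htq⟩ := hy
  have h1 : oL O γ ∣ C (π ^ n) * oL O p - C (π ^ m) * oL O q := by
    have h2 := dvd_sub he hd
    have e1 : a - C (π ^ m) * oL O q - (a - C (π ^ n) * oL O p) =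
      C (π ^ n) * oL O p - C (π ^ m) * oL O q := by ring
    rwa [e1] at h2
  have h2 := (hUNR L O π h γ hγ.1 hγ.2.2).2.1 n m p q hp hq h1
  have h3 : x.1 = y.1 := by rw [← hn, ← hm, h2]
  refine Prod.ext h3 ?_
  rw [h3] at hsq
  have h4 : x.2 = 0 ↔ y.2 = 0 := hsq.trans htq.symm
  have h5 : ∀ i j : ZMod 2, (i = 0 ↔ j = 0) → i = j := by decide
  exact h5 _ _ h4

/-- **CLA.** -/
theorem cla (hUNR : UNRStmt) : CLAStmt := by
  classical
  intro L _ O π h g c γ _ hγ a ha
  have hγ0 : ¬ oL O γ ∣ a := by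
    intro h0
    have h1 : IsCoprime (oL O γ) (oL O γ) := by
      have h2 : IsCoprime a (oL O γ) := by
        rw [oL, Polynomial.map_mul] at ha
        exact ha.of_mul_right_right
      exact h2.of_isCoprime_of_dvd_left h0
    have h2 : IsUnit (oL O γ) := isCoprime_self.1 h1
    have h3 : (oL O γ).natDegree = 0 := natDegree_eq_zero_of_isUnit h2
    rw [hγ.1.natDegree_map] at h3
    have h4 : (rd O γ).natDegree = 0 := by
      rw [rd, hγ.1.natDegree_map, h3]
    exact hγ.2.2.not_isUnit (by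
      have h5 : (rd O γ).Monic := hγ.1.map _
      rw [(Polynomial.Monic.natDegree_eq_zero h5).1 h4]
      exact isUnit_one)
  obtain ⟨n, p, hp, hd⟩ := (hUNR L O π h γ hγ.1 hγ.2.2).1 a hγ0
  refine ⟨((n : ZMod 2), if IsSquare (a.eval (c : L) *
    ((oL O γ).eval (c : L)) ^ ((n : ZMod 2)).val) then 0 else 1), n, p, hp, hd, rfl, ?_⟩
  simp only
  split_ifs with h1
  · exact ⟨fun _ => h1, fun _ => rfl⟩
  · exact ⟨fun h2 => absurd h2 one_ne_zero, fun h2 => absurd h2 h1⟩

end Pool.HYP
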