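import Pool.Agent.H41.HYP.S1

/-!
# The characteristic polynomial of the pencil of a class
-/

set_option autoImplicit false

namespace Pool.HYP.H69

open Polynomial Matrix

variable {K : Type} [Field K]

/-- `τ` on the algebra. -/
noncomputable def tt {f : K[X]} (hf : f.Monic) : AdjoinRoot f →ₗ[K] K :=
  (lcoeff K (f.natDegree - 1)).comp (AdjoinRoot.modByMonicHom hf)

theorem tt_mk {f : K[X]} (hf : f.Monic) (p : K[X]) : tt hf (AdjoinRoot.mk f p) = tau f p := by
  unfold tt tau
  rw [LinearMap.comp_apply, AdjoinRoot.modByMonicHom_mk, lcoeff_apply]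

theorem finrank_adj {f : K[X]} (hf : f.Monic) : Module.finrank K (AdjoinRoot f) = f.natDegree := by
  rw [(AdjoinRoot.powerBasis' hf).finrank]
  rfl

theorem charpoly_mul {f : K[X]} (hf : f.Monic) {n : ℕ} (b : Module.Basis (Fin n) K (AdjoinRoot f)) :
    (Algebra.leftMulMatrix b (AdjoinRoot.root f)).charpoly = f := by
  have : Module.Finite K (AdjoinRoot f) := hf.finite_adjoinRoot
  have : Module.Free K (AdjoinRoot f) := hf.free_adjoinRoot
  have h1 : (Algebra.leftMulMatrix b (AdjoinRoot.root f)).charpoly =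
      (LinearMap.mulLeft K (AdjoinRoot.root f)).charpoly := by
    rw [← LinearMap.charpoly_toMatrix (LinearMap.mulLeft K (AdjoinRoot.root f)) b]
    rfl
  have h2 : (Algebra.leftMulMatrix (AdjoinRoot.powerBasis' hf).basis
      (AdjoinRoot.powerBasis' hf).gen).charpoly =
      (LinearMap.mulLeft K (AdjoinRoot.root f)).charpoly := by
    rw [← LinearMap.charpoly_toMatrix (LinearMap.mulLeft K (AdjoinRoot.root f))
      (AdjoinRoot.powerBasis' hf).basis]
    rfl
  rw [h1, ← h2, charpoly_leftMulMatrix]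
  show minpoly K (AdjoinRoot.root f) = f
  rw [AdjoinRoot.minpoly_root hf.ne_zero, hf.leadingCoeff, inv_one, C_1, mul_one]

theorem chp : CHPStmt := by
  intro K _ n f h G S hf hn hR hdet
  obtain ⟨e, hG, hS⟩ := hR
  rcases Nat.eq_zero_or_pos n with rfl | hpos
  · have h1 : f = 1 := (Polynomial.Monic.natDegree_eq_zero hf).1 hn
    rw [h1, Matrix.det_isEmpty, Matrix.det_isEmpty, C_1, mul_one]
  have : Module.Finite K (AdjoinRoot f) := hf.finite_adjoinRoot
  have : Nonempty (Fin n) := ⟨⟨0, hpos⟩⟩
  have hGt : ∀ i j, G i j = tt hf (AdjoinRoot.mk f (e i) * AdjoinRoot.mk f h *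
      AdjoinRoot.mk f (e j)) := by
    intro i j
    rw [← map_mul, ← map_mul, tt_mk, ← hG i j]
    congr 1
    ring
  have hSt : ∀ i j, S i j = tt hf (AdjoinRoot.mk f (e i) * AdjoinRoot.mk f h *
      (AdjoinRoot.root f * AdjoinRoot.mk f (e j))) := by
    intro i j
    rw [← AdjoinRoot.mk_X, ← map_mul, ← map_mul, ← map_mul, tt_mk, ← hS i j]
    congr 1
    ring
  have hli : LinearIndependent K fun i => AdjoinRoot.mk f (e i) := by
    rw [Fintype.linearIndependent_iff]
    intro c hc
    have h1 : G *ᵥ c = 0 := by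
      ext i
      have h2 : (G *ᵥ c) i = tt hf (AdjoinRoot.mk f (e i) * AdjoinRoot.mk f h *
          ∑ j, c j • AdjoinRoot.mk f (e j)) := by
        rw [Finset.mul_sum, map_sum]
        simp only [mulVec, dotProduct]
        refine Finset.sum_congr rfl fun j _ => ?_
        rw [mul_smul_comm, map_smul, ← hGt i j, smul_eq_mul, mul_comm]
      rw [h2, hc, mul_zero, map_zero]
      rfl
    have h3 := Matrix.eq_zero_of_mulVec_eq_zero hdet h1
    intro i
    rw [h3]
    rfl
  obtain ⟨b, hb⟩ : ∃ b : Module.Basis (Fin n) K (AdjoinRoot f), ∀ i, b i = AdjoinRoot.mk f (e i) :=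
    ⟨basisOfLinearIndependentOfCardEqFinrank hli (by
      rw [Fintype.card_fin, finrank_adj hf, hn]), fun i => by
      rw [coe_basisOfLinearIndependentOfCardEqFinrank]⟩
  have hSM : S = G * Algebra.leftMulMatrix b (AdjoinRoot.root f) := by
    ext i j
    rw [hSt i j, Matrix.mul_apply, ← hb j, ← b.sum_repr (AdjoinRoot.root f * b j), Finset.mul_sum,
      map_sum]
    refine Finset.sum_congr rfl fun k _ => ?_
    rw [Algebra.leftMulMatrix_eq_repr_mul, mul_smul_comm, map_smul, hb k, ← hGt i k, smul_eq_mul,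
      mul_comm]
  have hpen : pen G S = (C.mapMatrix G) *
      charmatrix (Algebra.leftMulMatrix b (AdjoinRoot.root f)) := by
    rw [hSM, charmatrix, mul_sub, ← map_mul]
    refine Matrix.ext fun i j => ?_
    simp only [pen, of_apply, Matrix.sub_apply, RingHom.mapMatrix_apply, Matrix.map_apply]
    rw [Matrix.scalar_apply, Matrix.mul_diagonal, Matrix.map_apply, X_mul_C]
  rw [hpen, Matrix.det_mul, ← RingHom.map_det]
  congr 1
  exact charpoly_mul hf b

end Pool.HYP.H69

namespace Pool.HYP

/-- **CHP.** -/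
theorem chp : CHPStmt := H69.chp

end Pool.HYP
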