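import Pool.Agent.H69.HYP.TYM

/-!
# The type depends only on the class
-/

set_option autoImplicit false

namespace Pool.HYP.H69

open Polynomial Matrix Pool.AVS

theorem tys (hUNR : UNRStmt) : TYSStmt := by
  intro L _ O π h g c γ _ hγ a b s x hs hd ha
  obtain ⟨n, p, hp, he, hn, hsq⟩ := ha
  rw [oL_mul_X_sub] at hs hd
  have hs0 : s.eval (c : L) ≠ 0 := by
    intro h0
    obtain ⟨u, v, huv⟩ := hs
    have := congrArg (eval (c : L)) huv
    simp [h0] at this
  have hsγ : ¬ oL O γ ∣ s := by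
    intro h0
    have h1 : IsCoprime (oL O γ) (oL O γ) :=
      (hs.of_mul_right_right).of_isCoprime_of_dvd_left h0
    have h2 : IsUnit (oL O γ) := isCoprime_self.1 h1
    have h3 : (oL O γ).natDegree = 0 := natDegree_eq_zero_of_isUnit h2
    rw [hγ.1.natDegree_map] at h3
    have h4 : (rd O γ).natDegree = 0 := by
      rw [rd, hγ.1.natDegree_map, h3]
    exact hγ.2.2.not_isUnit (by
      have h5 : (rd O γ).Monic := hγ.1.map _
      rw [(Polynomial.Monic.natDegree_eq_zero h5).1 h4]
      exact isUnit_one)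
  obtain ⟨m, q, hq, hf⟩ := (hUNR L O π h γ hγ.1 hγ.2.2).1 s hsγ
  have hdγ : oL O γ ∣ b - a * s ^ 2 := (dvd_mul_left _ _).trans hd
  have hdc : b.eval (c : L) = a.eval (c : L) * s.eval (c : L) ^ 2 := by
    obtain ⟨r, hr⟩ := (dvd_mul_right (X - C (c : L)) (oL O γ)).trans hd
    have := congrArg (eval (c : L)) hr
    simp only [eval_sub, eval_mul, eval_pow, eval_X, eval_C, sub_self, zero_mul] at this
    linear_combination this
  refine ⟨n + (m + m), p * (q * q), ?_, ?_, ?_, ?_⟩
  · rw [rd, Polynomial.map_mul, Polynomial.map_mul]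
    exact hp.mul_left (hq.mul_left hq)
  · have e1 : b - C (π ^ (n + (m + m))) * oL O (p * (q * q)) =
        (b - a * s ^ 2) + s ^ 2 * (a - C (π ^ n) * oL O p) +
          C (π ^ n) * oL O p * (s + C (π ^ m) * oL O q) * (s - C (π ^ m) * oL O q) := by
      rw [zpow_add₀ h.pi_ne, zpow_add₀ h.pi_ne, C_mul, C_mul, oL, oL, oL, Polynomial.map_mul,
        Polynomial.map_mul]
      ring
    rw [e1]
    exact dvd_add (dvd_add hdγ (he.mul_left _)) (hf.mul_left _)
  · rw [Int.cast_add, Int.cast_add, hn]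
    have : ∀ i j : ZMod 2, i + (j + j) = i := by decide
    exact this _ _
  · rw [hsq, hdc]
    have e2 : a.eval (c : L) * s.eval (c : L) ^ 2 * ((oL O γ).eval (c : L)) ^ x.1.val =
        a.eval (c : L) * ((oL O γ).eval (c : L)) ^ x.1.val * s.eval (c : L) ^ 2 := by ring
    rw [e2, sq_mul_sq _ hs0]

end Pool.HYP.H69

namespace Pool.HYP

/-- **TYS.** -/
theorem tys (hUNR : UNRStmt) : TYSStmt := H69.tys hUNR

end Pool.HYP
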